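import Pool.Agent.TH344.PW.Rnk

/-!
# Project PH: families of Jacobians twisted by a polynomial with few prime factors

As project PW, for the family `y² = ∏ (x - H(t) u_i(t))`, `H` a polynomial coprime to the differences
`u_i - u_j`, over the `t` for which `H(t)` has at most `R` prime factors. This file: the bound for the
Selmer group.
-/

set_option autoImplicit false

namespace Pool.Agent.TH344.PH

open Finset Polynomial Pool.Agent.W262.RK Pool.Agent.W307.RT Pool.Agent.W307.RS
open Pool.Agent.TH841.PT Pool.Agent.TH344.JG Pool.Agent.TH344.PJ Pool.Agent.TH344.PW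

section

variable {J : Type} [Fintype J] [DecidableEq J] {n : ℕ}

/-- the twisted family -/
noncomputable def uH (H : ℤ[X]) (u : Fin n → ℤ[X]) : Fin n → ℤ[X] := fun i => H * u i

/-- the large primes do not divide both `f_j(t)` and `H(t)` -/
def CopZ (f : J → ℤ[X]) (H : ℤ[X]) (z : ℕ) : Prop :=
  ∀ p : ℕ, p.Prime → z < p → ∀ (j : J) (t : ℤ), ¬ ((p : ℤ) ∣ (f j).eval t ∧ (p : ℤ) ∣ H.eval t)

/-- `H(t)` is not zero and has at most `R` prime factors -/
def FewP (H : ℤ[X]) (R : ℕ) (t : ℤ) : Prop :=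
  H.eval t ≠ 0 ∧ (H.eval t).natAbs.primeFactors.card ≤ R

open Classical in
/-- the order of the Selmer group of the twisted Jacobian, if `H(t)` has few prime factors -/
noncomputable def RH (H : ℤ[X]) (R : ℕ) (u : Fin n → ℤ[X]) (t : ℤ) : ℝ :=
  if FewP H R t then ((SelJ (fun i => (uH H u i).eval t)).ncard : ℝ) else 0

end

namespace Rnk

open Pool.Agent.TH344.PW.Rnk

section main

variable {J : Type} [Fintype J] [DecidableEq J] {n : ℕ}
variable {u : Fin n → ℤ[X]} {κ : PR n → ℤ} {cls : J → PR n} {f : J → ℤ[X]} {z c : ℕ} {t : ℤ}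
variable {H : ℤ[X]}

theorem df_eqH (hP : PenC u κ cls f) (t : ℤ) (c : PR n) : df (fun i => (uH H u i).eval t) c =
    H.eval t * (κ c * ∏ j ∈ univ.filter (fun j => cls j = c), (f j).eval t) := by
  have := df_eqR hP t c
  rw [← this]
  unfold df uH
  simp only [eval_mul]
  ring

theorem df_neH (hP : PenC u κ cls f) (h0 : ∀ j, (f j).eval t ≠ 0) (hH : H.eval t ≠ 0) (c : PR n) :
    df (fun i => (uH H u i).eval t) c ≠ 0 := by
  rw [df_eqH hP]
  exact mul_ne_zero hH (mul_ne_zero (hP.ne c) (prod_ne_zero_iff.2 fun l _ => h0 l))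

theorem injH (hP : PenC u κ cls f) (h0 : ∀ j, (f j).eval t ≠ 0) (hH : H.eval t ≠ 0) :
    Function.Injective (fun i => (uH H u i).eval t) := by
  intro i j hij
  by_contra hne
  rcases lt_or_gt_of_ne hne with h | h
  · exact df_neH hP h0 hH ⟨(i, j), h⟩ (sub_eq_zero.2 hij)
  · exact df_neH hP h0 hH ⟨(j, i), h⟩ (sub_eq_zero.2 hij.symm)

/-- the primes of a class divide one difference, exactly once -/
theorem niceH (hP : PenC u κ cls f) (hG : GoodP κ f z c) (hC : CopZ f H z) {p : ℕ} (hp : p.Prime)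
    (hz : z < p)
    {j : J} (h1 : (p : ℤ) ∣ (f j).eval t) (h2 : ¬ (p : ℤ) ^ 2 ∣ (f j).eval t) :
    (p : ℤ) ∣ df (fun i => (uH H u i).eval t) (cls j) ∧
      ¬ (p : ℤ) ^ 2 ∣ df (fun i => (uH H u i).eval t) (cls j) := by
  have hpi : Prime (p : ℤ) := Nat.prime_iff_prime_int.1 hp
  have h3 := niceR hP hG hp hz h1 h2
  rw [df_eqR hP] at h3
  rw [df_eqH hP]
  refine ⟨h3.1.mul_left _, fun h => h3.2 ?_⟩
  refine IsCoprime.dvd_of_dvd_mul_left ?_ h
  exact IsCoprime.pow_left ((Prime.coprime_iff_not_dvd hpi).2 fun h4 => hC p hp hz j t ⟨h1, h4⟩)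

theorem cls_ofH (hP : PenC u κ cls f) (hG : GoodP κ f z c) (hC : CopZ f H z) {p : ℕ}
    (hp : p.Prime) (hz : z < p)
    {j : J} (h1 : (p : ℤ) ∣ (f j).eval t) {c' : PR n}
    (h2 : (p : ℤ) ∣ df (fun i => (uH H u i).eval t) c') : c' = cls j := by
  have hpi : Prime (p : ℤ) := Nat.prime_iff_prime_int.1 hp
  rw [df_eqH hP] at h2
  rcases hpi.dvd_or_dvd h2 with h4 | h4
  · exact absurd ⟨h1, h4⟩ (hC p hp hz j t)
  · refine cls_ofR hP hG hp hz h1 ?_
    rw [df_eqR hP]
    exact h4

end main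

open Pool.Agent.TH841.PT in
set_option maxHeartbeats 400000 in
/-- the bound for the family -/
theorem core (g : ℕ) (J : Type) [Fintype J] [DecidableEq J]
    (u : Fin (2 * g + 1) → ℤ[X]) (κ : PR (2 * g + 1) → ℤ) (cls : J → PR (2 * g + 1))
    (f : J → ℤ[X]) (H : ℤ[X]) (R0 z c : ℕ) (hP : PenC u κ cls f) (hGP : GoodP κ f z c)
    (hCZ : CopZ f H z) :
    ∃ C0 : ℝ, 0 ≤ C0 ∧ ∀ (y X k B : ℕ) (t : ℤ), (∀ j, (f j).eval t ≠ 0) → FewP H R0 t →
    (∀ j, ((f j).eval t).natAbs ≤ X ^ B) → 1 ≤ X → 1 ≤ y → X < (y + 1) ^ k →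
    (SelJ (fun i => (uH H u i).eval t)).Finite ∧
    ((SelJ (fun i => (uH H u i).eval t)).ncard : ℝ) ≤
      C0 * ((2 ^ (2 * g + 1)) ^ (B * Fintype.card J)) ^ k *
        (∏ i, ((2 : ℝ) ^ (2 * g + 1)) ^ (S2 z y (prJ (uH H u) cls f z t) i).primeFactors.card) *
        (NV (adJ cls) (S1 z y (prJ (uH H u) cls f z t))
          (Eneg (S1 z y (prJ (uH H u) cls f z t))) : ℝ) := by
  classical
  refine ⟨((2 : ℝ) ^ (2 * g + 1)) ^ (1 + z + R0), by positivity,
    fun y X k B t h0 hHt hB hX hy hk => ?_⟩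
  have hG : Gd z (fun l => (f l).eval t) :=
    ⟨h0, fun p hp hz j l hjl => hGP.pair p hp hz j l hjl t⟩
  have hz4 := hGP.four
  -- the parts
  obtain ⟨S, hS⟩ : ∃ S : J → ℕ, S = S1 z y (fun l => (f l).eval t) := ⟨_, rfl⟩
  obtain ⟨s, hs⟩ : ∃ s : J × Bool → ℕ, s = S1 z y (prJ (uH H u) cls f z t) := ⟨_, rfl⟩
  obtain ⟨s', hs'⟩ : ∃ s' : PR (2 * g + 1) → ℕ,
      ∀ c, s' c = ∏ j ∈ univ.filter (fun j => cls j = c), S j := ⟨fun c => _, fun c => rfl⟩
  have hSs : ∀ j, ∏ b : Bool, s (j, b) = S j := by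
    intro j
    rw [hs, hS]
    exact S1_prodR h0 y j
  have hm1 : ∏ c, s' c = ∏ j, S j := prod_clsR cls s' S hs'
  have hdv' : ∀ q : ℕ, q.Prime → ∀ c, q ∣ s' c → ∃ j, cls j = c ∧ q ∣ S j := by
    intro q hq c h
    rw [hs' c, hq.prime.dvd_finsetProd_iff] at h
    obtain ⟨i, hi, hi2⟩ := h
    exact ⟨i, (mem_filter.1 hi).2, hi2⟩
  have hSd : ∀ q : ℕ, q.Prime → ∀ j, q ∣ S j ↔ (z < q ∧ q ≤ y) ∧ (q : ℤ) ∣ (f j).eval t ∧
      ¬ (q : ℤ) ^ 2 ∣ (f j).eval t := by
    intro q hq j
    rw [hS]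
    exact s1_dvdR hq
  have hPP : ∏ j, S j ∣ PP z y := by
    rw [hS]
    exact Pool.Agent.W262.RK.Tup_prod_dvd (SelXf.s1_tup hG)
  have hsel := selj_of goodj nicej (2 * g + 1) (fun i => (uH H u i).eval t) s' ⟨g, rfl⟩
    (injH hP h0 hHt.1)
    (fun c => by
      refine (PP_squarefree z y).squarefree_of_dvd (dvd_trans ?_ hPP)
      rw [← hm1]
      exact dvd_prod_of_mem _ (mem_univ c))
    (fun c p hp hpc => by
      obtain ⟨j, rfl, hj⟩ := hdv' p hp c hpc
      obtain ⟨k1, k2, k3⟩ := (hSd p hp j).1 hj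
      have k4 := niceH hP hGP hCZ hp k1.1 k2 k3
      refine ⟨by omega, k4.1, k4.2, fun c' hc' h => hc' (cls_ofH hP hGP hCZ hp k1.1 k2 h)⟩)
  refine ⟨hsel.1, ?_⟩
  -- the bad primes
  have hbad : ((2 * ∏ c : PR (2 * g + 1),
      (df (fun i => (uH H u i).eval t) c).natAbs).primeFactors.filter
      (fun q => ¬ q ∣ ∏ c, s' c)).card ≤ z + Fintype.card J * (B * k) +
      ∑ i, (S2 z y (prJ (uH H u) cls f z t) i).primeFactors.card + R0 := by
    have hsub : ((2 * ∏ c : PR (2 * g + 1),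
        (df (fun i => (uH H u i).eval t) c).natAbs).primeFactors.filter
          (fun q => ¬ q ∣ ∏ c, s' c)) ⊆
        (((Icc 1 z) ∪ univ.biUnion (fun j => ((f j).eval t).natAbs.primeFactors.filter (y < ·))) ∪
          univ.biUnion (fun j => (S2 z y (fun l => (f l).eval t) j).primeFactors)) ∪
          (H.eval t).natAbs.primeFactors := by
      intro q hq
      rw [mem_filter] at hq
      have hp := Nat.prime_of_mem_primeFactors hq.1
      have hdv := Nat.dvd_of_mem_primeFactors hq.1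
      rw [mem_union, mem_union, mem_union, mem_Icc]
      rcases Nat.lt_or_ge z q with h | h
      swap
      · exact Or.inl (Or.inl (Or.inl ⟨hp.one_lt.le, h⟩))
      · have hqi : Prime (q : ℤ) := Nat.prime_iff_prime_int.1 hp
        have hk : ∃ c : PR (2 * g + 1), (q : ℤ) ∣ df (fun i => (uH H u i).eval t) c := by
          rcases (Nat.Prime.dvd_mul hp).1 hdv with h1 | h1
          · exfalso
            have h5 := Nat.le_of_dvd (by norm_num) h1
            omega
          · obtain ⟨c, _, hc⟩ := (hp.prime.dvd_finsetProd_iff _).1 h1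
            exact ⟨c, Int.natCast_dvd.2 hc⟩
        obtain ⟨c', hk⟩ := hk
        rw [df_eqH hP] at hk
        rcases hqi.dvd_or_dvd hk with h1 | hk
        · right
          exact Nat.mem_primeFactors.2 ⟨hp, Int.natCast_dvd.1 h1, Int.natAbs_ne_zero.2 hHt.1⟩
        left
        rcases hqi.dvd_or_dvd hk with h1 | h1
        · exact absurd h1 (hGP.const q hp h c')
        · obtain ⟨l, _, hl⟩ := (hqi.dvd_finsetProd_iff _).1 h1
          rcases Nat.lt_or_ge y q with hyq | hyq
          · left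
            right
            rw [mem_biUnion]
            refine ⟨l, mem_univ _, ?_⟩
            rw [mem_filter, Nat.mem_primeFactors]
            exact ⟨⟨hp, Int.natCast_dvd.1 hl, Int.natAbs_ne_zero.2 (h0 l)⟩, hyq⟩
          · right
            rw [mem_biUnion]
            refine ⟨l, mem_univ _, ?_⟩
            have hsq : (q : ℤ) ^ 2 ∣ (f l).eval t := by
              by_contra hcon
              apply hq.2
              rw [hm1]
              exact ((hSd q hp l).2 ⟨⟨h, hyq⟩, hl, hcon⟩).trans (dvd_prod_of_mem _ (mem_univ l))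
            exact Nat.mem_primeFactors.2 ⟨hp, (s2_dvdR hp).2 ⟨⟨h, hyq⟩, hsq⟩, s2_neR _⟩
    rw [← S2_cardR h0 y]
    refine (card_le_card hsub).trans ((card_union_le _ _).trans (add_le_add
      ((card_union_le _ _).trans (add_le_add
      ((card_union_le _ _).trans (add_le_add ?_ ?_)) card_biUnion_le)) hHt.2))
    · simp
    · refine card_biUnion_le.trans ?_
      refine (sum_le_sum fun j _ => large_cardR (h0 j) hy (hB j) hk).trans ?_
      rw [sum_const, card_univ, smul_eq_mul]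
  -- the counts
  have hNV : NV adj s' (sgJ (fun i => (uH H u i).eval t) (∏ c, s' c)) =
      NV (adJ cls) s (Eneg s) := by
    refine nv_eqR adj (adJ cls) s' s _ _ (fun i => cls i.1) (fun c => ?_) (fun i i' => rfl)
      (fun i => ?_) (fun i p hp => ?_)
    · rw [hs' c, prod_filter, prod_filter, Fintype.prod_prod_type]
      refine prod_congr rfl fun j _ => ?_
      by_cases h : cls j = c
      · simp only [h, if_true]
        exact (hSs j).symm
      · simp [h]
    · rw [hs]
      exact s1_neR i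
    · have hpp := Nat.prime_of_mem_primeFactors hp
      have hd := Nat.dvd_of_mem_primeFactors hp
      have hd' := hd
      rw [hs, s1_iffR h0 y i hpp] at hd'
      obtain ⟨⟨k1, k2, k3⟩, k4⟩ := hd'
      have hmem : p ∈ (∏ c, s' c).primeFactors := by
        refine Nat.mem_primeFactors.2 ⟨hpp, ?_, ?_⟩
        · rw [hm1]
          exact ((hSd p hpp i.1).2 ⟨k1, k2, k3⟩).trans (dvd_prod_of_mem _ (mem_univ _))
        · rw [hm1]
          refine prod_ne_zero_iff.2 fun j _ => ?_
          rw [hS]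
          exact s1_neR j
      have e1 : p ∈ sgJ (fun i => (uH H u i).eval t) (∏ c, s' c) ↔
          tyJ (uH H u) cls p t i.1 = true := by
        unfold sgJ tyJ
        rw [mem_filter, decide_eq_true_iff]
        constructor
        · rintro ⟨_, c', h5, h6⟩
          rw [cls_ofH hP hGP hCZ hpp k1.1 k2 h5, sJ_eqR] at h6
          exact h6
        · intro h5
          refine ⟨hmem, cls i.1, (niceH hP hGP hCZ hpp k1.1 k2 k3).1, ?_⟩
          rw [sJ_eqR]
          exact h5
      have e2 : p ∈ Eneg s ↔ i.2 = true := by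
        unfold Eneg
        rw [Nat.mem_primeFactors]
        constructor
        · rintro ⟨_, h5, _⟩
          obtain ⟨j, _, hj⟩ := (hpp.prime.dvd_finsetProd_iff _).1 h5
          rw [hs, s1_iffR h0 y _ hpp] at hj
          have hji : j = i.1 := by
            by_contra hne
            exact hGP.pair p hpp k1.1 j i.1 hne t ⟨hj.1.2.1, k2⟩
          rw [← k4, ← hji]
          exact hj.2
        · intro h5
          refine ⟨hpp, ?_, ?_⟩
          · have h6 : s i ∣ ∏ j, s (j, true) := by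
              have h7 : i = (i.1, true) := Prod.ext rfl h5
              rw [h7]
              exact dvd_prod_of_mem (fun j => s (j, true)) (mem_univ i.1)
            exact hd.trans h6
          · refine prod_ne_zero_iff.2 fun j _ => ?_
            rw [hs]
            exact s1_neR _
      rw [e1, e2, k4]
  rw [hNV] at hsel
  rw [← hs]
  have h3 : ((SelJ (fun i => (uH H u i).eval t)).ncard : ℝ) ≤ _ := Nat.cast_le.2 hsel.2
  refine h3.trans ?_
  push_cast
  refine mul_le_mul_of_nonneg_right ?_ (Nat.cast_nonneg _)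
  have h4 : (1 : ℝ) ≤ 2 ^ (2 * g + 1) := one_le_pow₀ (by norm_num)
  refine (pow_le_pow_right₀ h4 (Nat.add_le_add_left hbad 1)).trans (le_of_eq ?_)
  obtain ⟨b, hb⟩ : ∃ b : ℝ, b = 2 ^ (2 * g + 1) := ⟨_, rfl⟩
  rw [← hb, prod_pow_eq_pow_sum, ← pow_mul, ← pow_add, ← pow_add]
  congr 1
  ring

end Rnk

end Pool.Agent.TH344.PH
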