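import Mathlib
import Pool.Agent.TH344.PH.Fin
import Pool.Agent.TH344.PW.Main2
import Pool.Agent.TH344.PJ.Fin
import Pool.Agent.TH344.GT.Prod
import Pool.Agent.TH344.PW.Mqf

/-!
# Project PH: the products over finitely many twists by constants and prime values
-/

set_option autoImplicit false

namespace Pool.Agent.TH344.PH

open Finset Polynomial Pool.Agent.W262.RK Pool.Agent.TH841.PT Pool.Agent.TH344.JG
open Pool.Agent.TH344.PJ Pool.Agent.TH344.PW

theorem penh : S_PENH :=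
  penh_of (avgh_of Pool.Agent.TH344.PJ.cntj Pool.Agent.TH344.PJ.subj) makh (badg_of omg) diaq

lemma ndvd_cop {J : Type} [Fintype J] [DecidableEq J] {n : ℕ} {u : Fin n → ℤ[X]}
    {κ : PR n → ℤ} {cls : J → PR n} {f : J → ℤ[X]}
    (hf : Irr f) (hfac : ∀ c : PR n, u c.1.1 - u c.1.2 =
      C (κ c) * ∏ j ∈ univ.filter (fun j => cls j = c), f j) {H : ℤ[X]}
    (hH : ∀ i j, i < j → IsCoprime (H.map (Int.castRingHom ℚ))
      ((u i - u j).map (Int.castRingHom ℚ))) (j : J) : ¬ mQ (f j) ∣ mQ H := by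
  intro h2
  have h1 : (f j).map (Int.castRingHom ℚ) ∣
      (u (cls j).1.1 - u (cls j).1.2).map (Int.castRingHom ℚ) := by
    apply Polynomial.map_dvd
    rw [hfac (cls j)]
    refine Dvd.dvd.mul_left (dvd_prod_of_mem f ?_) _
    simp
  exact (map_irr (hf.irr j) (hf.deg j)).not_isUnit
    ((hH _ _ (cls j).2).isUnit_of_dvd' h2 h1)

open Classical in
/-- **all the moments of the 2-Selmer groups in a twisted family, at prime arguments** -/
theorem gen_primeH (g : ℕ) (hg : 1 ≤ g)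
    (u : Fin (2 * g + 1) → ℤ[X]) (hu : Gen u)
    (hpos : ∀ c : PR (2 * g + 1), nf (u c.1.1 - u c.1.2) ≠ 0)
    (hbal : Bal (2 * g + 1) (fun c => nf (u c.1.1 - u c.1.2)))
    {r : ℕ} {G : Fin r → ℤ[X]} (hG : Irr G)
    (hGu : ∀ l i j, i < j → IsCoprime ((G l).map (Int.castRingHom ℚ))
      ((u i - u j).map (Int.castRingHom ℚ)))
    (H : ℤ[X]) (R0 : ℕ) (hHu : ∀ i j, i < j → IsCoprime (H.map (Int.castRingHom ℚ))
      ((u i - u j).map (Int.castRingHom ℚ))) (hHR : ∀ t, AllPr G t → FewP H R0 t) :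
    ∃ Z : Set ℤ, (∀ t, t ∉ Z → NDeg u t) ∧
      (∀ (L : ℕ) (ε : ℝ), 0 < ε → ∃ M0 : ℕ, ∀ (N : ℤ) (M : ℕ), M0 ≤ M → |N| ≤ (M : ℤ) ^ L →
        (((Ioc N (N + M)).filter (fun t => AllPr G t ∧ t ∈ Z)).card : ℝ) ≤
          ε * (M / (Real.log M) ^ r)) ∧
      ∀ k L : ℕ, ∃ C : ℝ, ∀ (N : ℤ) (M : ℕ), 2 ≤ M → |N| ≤ (M : ℤ) ^ L →
        ∑ t ∈ (Ioc N (N + M)).filter (fun t => AllPr G t ∧ t ∉ Z),
          ((SelJ (fun i => H.eval t * (u i).eval t)).ncard : ℝ) ^ k ≤
            C * (M / (Real.log M) ^ r) := by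
  obtain ⟨J, iJ, iJ', κ, cls, f, hf, hκ, hfac, hcard⟩ := exists_data u hu
  have hPen : PenB u κ cls f := by
    refine ⟨hf, hκ, fun c => ?_, hfac⟩
    have h1 := hpos c
    rw [← hcard c, Ne, card_eq_zero] at h1
    obtain ⟨j, hj⟩ := nonempty_iff_ne_empty.2 h1
    exact ⟨j, (mem_filter.1 hj).2⟩
  have hbal' : Bal (2 * g + 1) (fun c => (univ.filter (fun j => cls j = c)).card) := by
    have : (fun c : PR (2 * g + 1) => (univ.filter (fun j => cls j = c)).card) =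
        fun c => nf (u c.1.1 - u c.1.2) := by
      funext c
      exact hcard c
    rw [this]
    exact hbal
  obtain ⟨Z, hZ1, hZ2, hZ3⟩ := penh g J u κ cls f r G H R0 hg hPen hbal' hG
    (fun i j => not_assoc hf hfac (hGu i) j) (ndvd_cop hf hfac hHu)
  have hconv : ∀ (N : ℤ) (M L : ℕ), |N| ≤ (M : ℤ) ^ L → N.natAbs ≤ M ^ L := by
    intro N M L h
    have h1 : (N.natAbs : ℤ) ≤ ((M ^ L : ℕ) : ℤ) := by
      rw [Int.natCast_natAbs]
      push_cast
      exact h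
    exact_mod_cast h1
  have hinj : ∀ (N : ℤ), Function.Injective (fun t : ℕ => N + (t : ℤ)) := by
    intro N a b hab
    simpa using hab
  have himg : ∀ (N : ℤ) (M : ℕ) (P : ℤ → Prop) (A : Finset ℤ) (B : Finset ℕ),
      (∀ t, t ∈ A ↔ t ∈ Ioc N (N + M) ∧ P t) → (∀ t, t ∈ B ↔ t ∈ Icc 1 M ∧ P (N + (t : ℤ))) →
      A = B.image (fun t : ℕ => N + (t : ℤ)) := by
    intro N M P A B hA hB
    ext t
    rw [hA]
    rw [mem_Ioc, mem_image]
    constructor
    · rintro ⟨⟨h1, h2⟩, h3⟩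
      refine ⟨(t - N).toNat, ?_, ?_⟩
      · rw [hB, mem_Icc]
        have h4 : (((t - N).toNat : ℕ) : ℤ) = t - N := Int.toNat_of_nonneg (by omega)
        refine ⟨⟨by omega, by omega⟩, ?_⟩
        rw [h4, add_sub_cancel]
        exact h3
      · have h4 : (((t - N).toNat : ℕ) : ℤ) = t - N := Int.toNat_of_nonneg (by omega)
        rw [h4]
        ring
    · rintro ⟨s, h1, rfl⟩
      rw [hB, mem_Icc] at h1
      refine ⟨⟨by omega, by omega⟩, h1.2⟩
  refine ⟨Z, fun t ht => (inj_iff hκ hfac t).2 (hZ1 t ht), fun L ε hε => ?_, fun k L => ?_⟩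
  · obtain ⟨X0, hX0⟩ := hZ2 L ε hε
    refine ⟨X0, fun N M hM hN => ?_⟩
    refine le_trans (le_of_eq ?_) (hX0 N M hM (hconv N M L hN))
    rw [himg N M (fun t => AllPr G t ∧ t ∈ Z) _ _ (fun t => mem_filter) (fun t => mem_filter),
      card_image_of_injective _ (hinj N)]
  · obtain ⟨C, hC⟩ := hZ3 k L
    refine ⟨C, fun N M hM hN => ?_⟩
    refine le_trans (le_of_eq ?_) (hC N M hM (hconv N M L hN))
    rw [himg N M (fun t => AllPr G t ∧ t ∉ Z) _ _ (fun t => mem_filter) (fun t => mem_filter),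
      sum_image (fun a _ b _ h => hinj N h)]
    refine sum_congr rfl fun t ht => ?_
    have h1 := hHR _ (mem_filter.1 ht).2.1
    have h2 : RH H R0 u (N + (t : ℤ)) =
        ((SelJ (fun i => H.eval (N + (t : ℤ)) * (u i).eval (N + (t : ℤ)))).ncard : ℝ) := by
      unfold RH
      rw [if_pos h1]
      simp only [uH, eval_mul]
    beta_reduce
    rw [h2]

open Classical in
/-- **all the moments of the products of the orders of the 2-Selmer groups of finitely many twists of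
a family by polynomials with few prime factors, at prime arguments** -/
theorem gen_twistsH (g : ℕ) (hg : 1 ≤ g)
    (u : Fin (2 * g + 1) → ℤ[X]) (hu : Gen u)
    (hpos : ∀ c : PR (2 * g + 1), nf (u c.1.1 - u c.1.2) ≠ 0)
    (hbal : Bal (2 * g + 1) (fun c => nf (u c.1.1 - u c.1.2)))
    {r : ℕ} {G : Fin r → ℤ[X]} (hG : Irr G)
    (hGu : ∀ l i j, i < j → IsCoprime ((G l).map (Int.castRingHom ℚ))
      ((u i - u j).map (Int.castRingHom ℚ))) {ι : Type} [Fintype ι] [Nonempty ι]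
    (H : ι → ℤ[X]) (R0 : ι → ℕ)
    (hHu : ∀ b i j, i < j → IsCoprime ((H b).map (Int.castRingHom ℚ))
      ((u i - u j).map (Int.castRingHom ℚ))) (hHR : ∀ b t, AllPr G t → FewP (H b) (R0 b) t) :
    ∃ Z : Set ℤ, (∀ t, t ∉ Z → NDeg u t) ∧
      (∀ (L : ℕ) (ε : ℝ), 0 < ε → ∃ M0 : ℕ, ∀ (N : ℤ) (M : ℕ), M0 ≤ M → |N| ≤ (M : ℤ) ^ L →
        (((Ioc N (N + M)).filter (fun t => AllPr G t ∧ t ∈ Z)).card : ℝ) ≤
          ε * (M / (Real.log M) ^ r)) ∧
      ∀ k L : ℕ, ∃ C : ℝ, ∀ (N : ℤ) (M : ℕ), 2 ≤ M → |N| ≤ (M : ℤ) ^ L →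
        ∑ t ∈ (Ioc N (N + M)).filter (fun t => AllPr G t ∧ t ∉ Z),
          (∏ b, ((SelJ (fun i => (H b).eval t * (u i).eval t)).ncard : ℝ)) ^ k ≤
            C * (M / (Real.log M) ^ r) := by
  choose Z hZ1 hZ2 hZ3 using fun b => gen_primeH g hg u hu hpos hbal hG hGu (H b) (R0 b)
    (hHu b) (hHR b)
  refine ⟨⋃ b, Z b, fun t ht => ?_, fun L ε hε => ?_, fun k L => ?_⟩
  · obtain ⟨b⟩ := ‹Nonempty ι›
    exact hZ1 b t fun h => ht (Set.mem_iUnion.2 ⟨b, h⟩)
  · have hc : (0 : ℝ) < Fintype.card ι := by exact_mod_cast Fintype.card_pos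
    choose M0 hM0 using fun b => hZ2 b L (ε / Fintype.card ι) (by positivity)
    refine ⟨∑ b, M0 b, fun N M hM hN => ?_⟩
    calc (((Ioc N (N + M)).filter (fun t => AllPr G t ∧ t ∈ ⋃ b, Z b)).card : ℝ)
        ≤ ∑ b, (((Ioc N (N + M)).filter (fun t => AllPr G t ∧ t ∈ Z b)).card : ℝ) := by
          have h1 : (Ioc N (N + M)).filter (fun t => AllPr G t ∧ t ∈ ⋃ b, Z b) ⊆
              univ.biUnion (fun b => (Ioc N (N + M)).filter (fun t => AllPr G t ∧ t ∈ Z b)) := by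
            intro t ht
            rw [mem_filter, Set.mem_iUnion] at ht
            obtain ⟨h1, h2, b, hb⟩ := ht
            rw [mem_biUnion]
            exact ⟨b, mem_univ b, mem_filter.2 ⟨h1, h2, hb⟩⟩
          exact_mod_cast (card_le_card h1).trans card_biUnion_le
      _ ≤ ∑ b : ι, ε / Fintype.card ι * (M / (Real.log M) ^ r) :=
          sum_le_sum fun b _ => hM0 b N M ((single_le_sum (fun b _ => Nat.zero_le _)
            (mem_univ b)).trans hM) hN
      _ = _ := by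
          rw [sum_const, card_univ, nsmul_eq_mul]
          field_simp
  · choose CT hCT using fun b => hZ3 b (Fintype.card ι * k) L
    refine ⟨∑ b, CT b, fun N M hM hN => ?_⟩
    set S := (Ioc N (N + M)).filter (fun t => AllPr G t ∧ t ∉ ⋃ b, Z b) with hS
    calc ∑ t ∈ S, (∏ b, ((SelJ (fun i => (H b).eval t * (u i).eval t)).ncard : ℝ)) ^ k
        ≤ ∑ t ∈ S, ∑ b, ((SelJ (fun i => (H b).eval t * (u i).eval t)).ncard : ℝ) ^
            (Fintype.card ι * k) :=
          sum_le_sum fun t _ => Pool.Agent.TH344.GT.prod_pow_le' _ (fun b => Nat.cast_nonneg _) k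
      _ = ∑ b, ∑ t ∈ S, ((SelJ (fun i => (H b).eval t * (u i).eval t)).ncard : ℝ) ^
            (Fintype.card ι * k) := sum_comm
      _ ≤ ∑ b, CT b * (M / (Real.log M) ^ r) := by
          refine sum_le_sum fun b _ => le_trans ?_ (hCT b N M hM hN)
          have h1 : S ⊆ (Ioc N (N + M)).filter (fun t => AllPr G t ∧ t ∉ Z b) := by
            intro t ht
            rw [hS, mem_filter] at ht
            rw [mem_filter]
            exact ⟨ht.1, ht.2.1, fun h => ht.2.2 (Set.mem_iUnion.2 ⟨b, h⟩)⟩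
          exact sum_le_sum_of_subset_of_nonneg h1 fun t _ _ => by positivity
      _ = _ := by rw [sum_mul]

end Pool.Agent.TH344.PH
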