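import Mathlib
import Pool.Agent.TH344.PH.Main

/-!
# Project PH: the polynomials composed of the `G l`
-/

set_option autoImplicit false

namespace Pool.Agent.TH344.PH

open Finset Polynomial Pool.Agent.W262.RK Pool.Agent.TH841.PT Pool.Agent.TH344.JG
open Pool.Agent.TH344.PJ Pool.Agent.TH344.PW

/-- the nonconstant irreducible factors of `p` are among the `G l` -/
def Comp {r : ℕ} (G : Fin r → ℤ[X]) (p : ℤ[X]) : Prop :=
  ∃ (c : ℤ) (m : ℕ), c ≠ 0 ∧ p ∣ C c * (∏ l, G l) ^ m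

variable {r : ℕ} {G : Fin r → ℤ[X]}

lemma Comp.one : Comp G 1 := ⟨1, 0, one_ne_zero, one_dvd _⟩

lemma Comp.mul {p q : ℤ[X]} (hp : Comp G p) (hq : Comp G q) : Comp G (p * q) := by
  obtain ⟨c, m, hc, h⟩ := hp
  obtain ⟨c', m', hc', h'⟩ := hq
  refine ⟨c * c', m + m', mul_ne_zero hc hc', (mul_dvd_mul h h').trans (dvd_of_eq ?_)⟩
  rw [C_mul, pow_add]
  ring

lemma Comp.prod {ι : Type} {s : Finset ι} {p : ι → ℤ[X]} (hp : ∀ i ∈ s, Comp G (p i)) :
    Comp G (∏ i ∈ s, p i) := by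
  classical
  induction s using Finset.induction_on with
  | empty => rw [prod_empty]; exact Comp.one
  | insert a s ha ih =>
    rw [prod_insert ha]
    exact (hp a (mem_insert_self _ _)).mul (ih fun i hi => hp i (mem_insert_of_mem hi))

lemma Comp.eval {p : ℤ[X]} (hp : Comp G p) : ∃ R0 : ℕ, ∀ t, AllPr G t → FewP p R0 t := by
  obtain ⟨c, m, hc, h⟩ := hp
  refine ⟨c.natAbs.primeFactors.card + r, fun t ht => ?_⟩
  have h1 : p.eval t ∣ c * (∏ l, (G l).eval t) ^ m := by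
    have := Polynomial.eval_dvd (x := t) h
    rwa [eval_mul, eval_C, eval_pow, eval_prod] at this
  have h2 : c * (∏ l, (G l).eval t) ^ m ≠ 0 := by
    refine mul_ne_zero hc (pow_ne_zero _ (prod_ne_zero_iff.2 fun l _ h0 => ?_))
    have := (ht l).ne_zero
    rw [h0] at this
    exact this rfl
  have h3 : p.eval t ≠ 0 := fun h0 => h2 (by
    rw [h0] at h1
    exact zero_dvd_iff.1 h1)
  refine ⟨h3, ?_⟩
  have h4 : (p.eval t).natAbs.primeFactors ⊆ c.natAbs.primeFactors ∪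
      univ.image (fun l : Fin r => ((G l).eval t).natAbs) := by
    intro q hq
    have hq1 := Nat.prime_of_mem_primeFactors hq
    have hq2 := Nat.dvd_of_mem_primeFactors hq
    have hqi := Nat.prime_iff_prime_int.1 hq1
    have h5 : (q : ℤ) ∣ c * (∏ l, (G l).eval t) ^ m := (Int.natCast_dvd.2 hq2).trans h1
    rw [mem_union]
    rcases hqi.dvd_or_dvd h5 with h6 | h6
    · left
      exact Nat.mem_primeFactors.2 ⟨hq1, Int.natCast_dvd.1 h6, Int.natAbs_ne_zero.2 hc⟩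
    · right
      obtain ⟨l, _, h7⟩ := (hqi.dvd_finsetProd_iff _).1 (hqi.dvd_of_dvd_pow h6)
      rw [mem_image]
      refine ⟨l, mem_univ _, ?_⟩
      exact ((Nat.prime_dvd_prime_iff_eq hq1 (ht l)).1 (Int.natCast_dvd.1 h7)).symm
  refine (card_le_card h4).trans ((card_union_le _ _).trans (Nat.add_le_add_left ?_ _))
  refine card_image_le.trans ?_
  rw [card_univ, Fintype.card_fin]

lemma Comp.cop {p q : ℤ[X]} (hp : Comp G p)
    (hG : ∀ l, IsCoprime ((G l).map (Int.castRingHom ℚ)) (q.map (Int.castRingHom ℚ))) :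
    IsCoprime (p.map (Int.castRingHom ℚ)) (q.map (Int.castRingHom ℚ)) := by
  obtain ⟨c, m, hc, h⟩ := hp
  have h1 := Polynomial.map_dvd (Int.castRingHom ℚ) h
  refine IsCoprime.of_isCoprime_of_dvd_left ?_ h1
  rw [Polynomial.map_mul, Polynomial.map_C, Polynomial.map_pow, Polynomial.map_prod]
  have hc' : IsUnit (C ((Int.castRingHom ℚ) c) : ℚ[X]) := by
    rw [Polynomial.isUnit_C, isUnit_iff_ne_zero]
    simpa using hc
  rw [isCoprime_mul_unit_left_left hc']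
  exact IsCoprime.pow_left (IsCoprime.prod_left fun l _ => hG l)

open Classical in
/-- **all the moments of the products of the orders of the 2-Selmer groups over the fields
`ℚ(√D_1(t), ..., √D_s(t))`** -/
theorem gen_fieldsH (g : ℕ) (hg : 1 ≤ g)
    (u : Fin (2 * g + 1) → ℤ[X]) (hu : Gen u)
    (hpos : ∀ c : PR (2 * g + 1), nf (u c.1.1 - u c.1.2) ≠ 0)
    (hbal : Bal (2 * g + 1) (fun c => nf (u c.1.1 - u c.1.2)))
    (hG : Irr G)
    (hGu : ∀ l i j, i < j → IsCoprime ((G l).map (Int.castRingHom ℚ))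
      ((u i - u j).map (Int.castRingHom ℚ)))
    {s : ℕ} (D0 : ℤ[X]) (D : Fin s → ℤ[X]) (hD0 : Comp G D0) (hD : ∀ i, Comp G (D i)) :
    ∃ Z : Set ℤ, (∀ t, t ∉ Z → NDeg u t) ∧
      (∀ (L : ℕ) (ε : ℝ), 0 < ε → ∃ M0 : ℕ, ∀ (N : ℤ) (M : ℕ), M0 ≤ M → |N| ≤ (M : ℤ) ^ L →
        (((Ioc N (N + M)).filter (fun t => AllPr G t ∧ t ∈ Z)).card : ℝ) ≤
          ε * (M / (Real.log M) ^ r)) ∧
      ∀ k L : ℕ, ∃ C : ℝ, ∀ (N : ℤ) (M : ℕ), 2 ≤ M → |N| ≤ (M : ℤ) ^ L →
        ∑ t ∈ (Ioc N (N + M)).filter (fun t => AllPr G t ∧ t ∉ Z),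
          (∏ T : Finset (Fin s), ((SelJ (fun i => (D0.eval t * ∏ b ∈ T, (D b).eval t) *
            (u i).eval t)).ncard : ℝ)) ^ k ≤ C * (M / (Real.log M) ^ r) := by
  have hT : ∀ T : Finset (Fin s), Comp G (D0 * ∏ b ∈ T, D b) := fun T =>
    hD0.mul (Comp.prod fun i _ => hD i)
  choose R0 hR0 using fun T => (hT T).eval
  obtain ⟨Z, hZ1, hZ2, hZ3⟩ := gen_twistsH g hg u hu hpos hbal hG hGu
    (fun T : Finset (Fin s) => D0 * ∏ b ∈ T, D b) R0
    (fun T i j hij => (hT T).cop fun l => hGu l i j hij) hR0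
  refine ⟨Z, hZ1, hZ2, fun k L => ?_⟩
  obtain ⟨C, hC⟩ := hZ3 k L
  refine ⟨C, fun N M hM hN => ?_⟩
  refine le_trans (le_of_eq ?_) (hC N M hM hN)
  simp only [eval_mul, eval_prod]

end Pool.Agent.TH344.PH
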